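import Pool.Agent.H560.E2.Stm
import Pool.Agent.H225.Par.Sieve

/-!
# Products of two primes (helper560), task UPB (helper353): the upper bound sieve for the prime
values in a fibre, and the upper bound of Mertens' product
-/

set_option autoImplicit false
set_option linter.all false

open scoped Classical
open Polynomial

namespace Pool.Agent.H353.E2

open Pool.Agent.H985.Par (Sft S_sw)
open Pool.Agent.H560.E2
open Pool.Agent.H985.Chow.Asm (G G_surj card_deg coeff_G_odd)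
open Pool.Agent.H225.Par (Om lf vf ind ind_nonneg sw1 mod_eq_iff card_Om_eq bet dvd_bet dvd_bet_sub)
open Pool.Agent.H694.Typ (Mn mem_Mn card_Mn Irn mem_Irn PU mem_PU sum_PU wt wt_nonneg wt_le_half sum_irn q_ge)

lemma icc_range (f : ℕ → ℝ) (M : ℕ) : ∑ r ∈ Finset.Icc 1 M, f r = ∑ r ∈ Finset.range M, f (r + 1) := by
  induction M with
  | zero => simp
  | succ M ih => rw [Finset.sum_Icc_succ_top (by omega), Finset.sum_range_succ, ih]

lemma log_ge (x : ℝ) (h0 : 0 ≤ x) (h1 : x < 1) (M : ℕ) :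
    ∑ r ∈ Finset.Icc 1 M, x ^ r / r ≤ -Real.log (1 - x) := by
  have h := Real.hasSum_pow_div_log_of_abs_lt_one (x := x) (by rwa [abs_of_nonneg h0])
  have h2 := sum_le_hasSum (Finset.range M) (fun i _ => by positivity) h
  rw [icc_range]
  refine le_trans (le_of_eq ?_) h2
  refine Finset.sum_congr rfl fun r _ => ?_
  push_cast
  rfl

variable {K : Type} [Field K] [Fintype K]

lemma wt_lt (j : ℕ) (hj : 1 ≤ j) : wt K j < 1 := by
  have h := wt_le_half (k := K) j
  refine lt_of_le_of_lt h ?_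
  calc (1 / 2 : ℝ) ^ j ≤ (1 / 2 : ℝ) ^ 1 := pow_le_pow_of_le_one (by norm_num) (by norm_num) hj
    _ < 1 := by norm_num

lemma harm_le (M : ℕ) : ∑ n ∈ Finset.Icc 1 M, 1 / (n : ℝ) ≤
    ∑ j ∈ Finset.Icc 1 M, ((Irn K j).card : ℝ) * ∑ r ∈ Finset.Icc 1 M, wt K j ^ r / r := by
  have hq := q_ge (k := K)
  have h1 : ∀ n ∈ Finset.Icc 1 M, 1 / (n : ℝ) =
      ∑ j ∈ n.divisors, ((j : ℝ) * (Irn K j).card) * (wt K n / n) := by
    intro n hn
    rw [Finset.mem_Icc] at hn
    have h2 : ∑ j ∈ n.divisors, ((j : ℝ) * (Irn K j).card) = (Fintype.card K : ℝ) ^ n := by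
      exact_mod_cast sum_irn (k := K) (d := n) (by omega)
    rw [← Finset.sum_mul, h2]
    unfold wt
    have h3 : (Fintype.card K : ℝ) ^ n ≠ 0 := by positivity
    field_simp
  rw [Finset.sum_congr rfl h1]
  rw [Finset.sum_comm' (t' := Finset.Icc 1 M) (s' := fun j => (Finset.Icc 1 M).filter (fun n => j ∣ n))]
  swap
  · intro n j
    rw [Finset.mem_filter, Finset.mem_Icc, Nat.mem_divisors, Finset.mem_Icc]
    constructor
    · rintro ⟨h2, h3, h4⟩
      have := Nat.le_of_dvd (by omega) h3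
      have := Nat.pos_of_dvd_of_pos h3 (by omega)
      exact ⟨⟨h2, h3⟩, by omega, by omega⟩
    · rintro ⟨⟨h2, h3⟩, h4⟩
      exact ⟨h2, h3, by omega⟩
  refine Finset.sum_le_sum fun j hj => ?_
  rw [Finset.mem_Icc] at hj
  have hj0 : (0 : ℝ) < j := by exact_mod_cast (show 0 < j by omega)
  have h2 : ∀ n ∈ (Finset.Icc 1 M).filter (fun n => j ∣ n),
      ((j : ℝ) * (Irn K j).card) * (wt K n / n) =
        (fun r : ℕ => ((Irn K j).card : ℝ) * (wt K j ^ r / r)) (n / j) := by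
    intro n hn
    rw [Finset.mem_filter, Finset.mem_Icc] at hn
    obtain ⟨c, hc⟩ := hn.2
    have hc0 : 0 < c := by
      rcases Nat.eq_zero_or_pos c with h | h
      · rw [h, mul_zero] at hc
        omega
      · exact h
    have hc1 : (0 : ℝ) < c := by exact_mod_cast hc0
    have h3 : n / j = c := by rw [hc]; exact Nat.mul_div_cancel_left _ (by omega)
    show _ = ((Irn K j).card : ℝ) * (wt K j ^ (n / j) / ((n / j : ℕ) : ℝ))
    rw [h3, hc]
    have h4 : wt K (j * c) = wt K j ^ c := by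
      unfold wt
      rw [pow_mul, inv_pow]
    rw [h4]
    push_cast
    field_simp
  rw [Finset.sum_congr rfl h2, ← Finset.sum_image (s := (Finset.Icc 1 M).filter (fun n => j ∣ n))
    (g := fun n => n / j) (f := fun r : ℕ => ((Irn K j).card : ℝ) * (wt K j ^ r / r))]
  · rw [Finset.mul_sum]
    refine Finset.sum_le_sum_of_subset_of_nonneg ?_ ?_
    · intro r hr
      rw [Finset.mem_image] at hr
      obtain ⟨n, hn, rfl⟩ := hr
      rw [Finset.mem_filter, Finset.mem_Icc] at hn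
      rw [Finset.mem_Icc]
      refine ⟨Nat.div_pos (Nat.le_of_dvd (by omega) hn.2) (by omega), (Nat.div_le_self _ _).trans hn.1.2⟩
    · intro r _ _
      have := wt_nonneg (k := K) j
      positivity
  · intro n hn n' hn' h
    have h3 := (Finset.mem_filter.1 (Finset.mem_coe.1 hn)).2
    have h4 := (Finset.mem_filter.1 (Finset.mem_coe.1 hn')).2
    have h5 : n / j = n' / j := h
    rw [← Nat.div_mul_cancel h3, ← Nat.div_mul_cancel h4, h5]

theorem mert (M : ℕ) : ∏ P ∈ PU K M, (1 - wt K P.natDegree) ≤ 1 / ((M : ℝ) + 1) := by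
  have hpos : ∀ P ∈ PU K M, 0 < 1 - wt K P.natDegree := by
    intro P hP
    rw [mem_PU] at hP
    have := wt_lt (K := K) P.natDegree hP.2.1.natDegree_pos
    linarith
  have hprod : 0 < ∏ P ∈ PU K M, (1 - wt K P.natDegree) := Finset.prod_pos hpos
  have h1 : Real.log (∏ P ∈ PU K M, (1 - wt K P.natDegree)) ≤
      -∑ n ∈ Finset.Icc 1 M, 1 / (n : ℝ) := by
    rw [Real.log_prod (fun P hP => (hpos P hP).ne')]
    have h2 : ∑ P ∈ PU K M, Real.log (1 - wt K P.natDegree) ≤
        ∑ P ∈ PU K M, -∑ r ∈ Finset.Icc 1 M, wt K P.natDegree ^ r / r := by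
      refine Finset.sum_le_sum fun P hP => ?_
      rw [mem_PU] at hP
      have := log_ge (wt K P.natDegree) (wt_nonneg _) (wt_lt _ hP.2.1.natDegree_pos) M
      linarith
    refine h2.trans ?_
    rw [Finset.sum_neg_distrib, neg_le_neg_iff]
    refine (harm_le (K := K) M).trans (le_of_eq ?_)
    rw [sum_PU]
    refine Finset.sum_congr rfl fun j _ => ?_
    have h5 : ∀ P ∈ Irn K j, ∑ r ∈ Finset.Icc 1 M, wt K P.natDegree ^ r / (r : ℝ) =
        ∑ r ∈ Finset.Icc 1 M, wt K j ^ r / (r : ℝ) := fun P hP => by rw [(mem_Irn.1 hP).2.1]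
    rw [Finset.sum_congr rfl h5, Finset.sum_const, nsmul_eq_mul]
  have h3 : Real.log ((M : ℝ) + 1) ≤ ∑ n ∈ Finset.Icc 1 M, 1 / (n : ℝ) := by
    have h4 := log_add_one_le_harmonic M
    rw [Nat.cast_add, Nat.cast_one] at h4
    refine h4.trans (le_of_eq ?_)
    rw [harmonic_eq_sum_Icc]
    push_cast
    refine Finset.sum_congr rfl fun j _ => ?_
    rw [one_div]
  have hM : (0 : ℝ) < (M : ℝ) + 1 := by positivity
  rw [le_div_iff₀ hM, ← Real.exp_log hprod, ← Real.exp_log hM, ← Real.exp_add]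
  rw [Real.exp_le_one_iff]
  linarith

section loc

variable {K : Type} [Field K] [Fintype K]

lemma exists_res (p P a : K[X]) (hP : Irreducible P) (hp : ¬ P ∣ p) : ∃ r, P ∣ p * r + a := by
  obtain ⟨u, v, h⟩ := (hP.coprime_iff_not_dvd).2 hp
  refine ⟨-(a * v), a * u, ?_⟩
  linear_combination (-a) * h

lemma exists_of_card {k : ℕ} (β : Fin k → K[X]) {P : K[X]} (hP : P.Monic)
    (h : (Om β P).card < Fintype.card K ^ P.natDegree) : ∃ r, ∀ i, ¬ P ∣ r - β i := by
  by_contra hcon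
  have h0 : ∀ r, ∃ i, P ∣ r - β i := by
    intro r
    by_contra h1
    exact hcon ⟨r, fun i hi => h1 ⟨i, hi⟩⟩
  have h1 : (Finset.univ : Finset (degreeLT K P.natDegree)).image
      (fun u : degreeLT K P.natDegree => (u : K[X])) ⊆ Om β P := by
    intro y hy
    rw [Finset.mem_image] at hy
    obtain ⟨u, -, rfl⟩ := hy
    obtain ⟨i, hi⟩ := h0 (u : K[X])
    unfold Om
    rw [Finset.mem_image]
    refine ⟨i, Finset.mem_univ _, ?_⟩
    rw [← mod_eq_iff hP] at hi
    rw [← hi]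
    apply (modByMonic_eq_self_iff hP).2
    have h2 := mem_degreeLT.1 u.2
    rwa [degree_eq_natDegree hP.ne_zero]
  have h2 := Finset.card_le_card h1
  rw [Finset.card_image_of_injective _ Subtype.coe_injective, Finset.card_univ, card_deg] at h2
  omega

lemma card_cons {k : ℕ} (α : Fin k → K[X]) {P : K[X]} (hP : P.Monic) :
    (Om (Fin.cons 0 α : Fin (k + 1) → K[X]) P).card = om α P + 1 := by
  have h1 : Om (Fin.cons 0 α : Fin (k + 1) → K[X]) P =
      insert 0 ((Finset.univ.image (fun i => α i % P)).erase 0) := by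
    ext y
    unfold Om
    rw [Finset.mem_image, Finset.mem_insert, Finset.mem_erase, Finset.mem_image]
    constructor
    · rintro ⟨i, -, hi⟩
      by_cases hy : y = 0
      · exact Or.inl hy
      · right
        refine ⟨hy, ?_⟩
        refine Fin.cases ?_ (fun i hi => ?_) i hi
        · intro hi
          rw [Fin.cons_zero, zero_modByMonic] at hi
          exact absurd hi.symm hy
        · rw [Fin.cons_succ, modByMonic_eq_mod _ hP] at hi
          exact ⟨i, Finset.mem_univ _, hi⟩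
    · rintro (h | ⟨-, i, -, hi⟩)
      · refine ⟨0, Finset.mem_univ _, ?_⟩
        rw [Fin.cons_zero, zero_modByMonic, h]
      · refine ⟨i.succ, Finset.mem_univ _, ?_⟩
        rw [Fin.cons_succ, modByMonic_eq_mod _ hP]
        exact hi
  rw [h1, Finset.card_insert_of_notMem (Finset.notMem_erase _ _)]
  rfl

lemma card_zero {k : ℕ} {P : K[X]} :
    (Om (fun _ : Fin (k + 1) => (0 : K[X])) P).card = 1 := by
  unfold Om
  rw [Finset.card_eq_one]
  refine ⟨0, ?_⟩
  ext y
  rw [Finset.mem_image, Finset.mem_singleton]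
  constructor
  · rintro ⟨i, -, hi⟩
    rw [← hi, zero_modByMonic]
  · intro h
    exact ⟨0, Finset.mem_univ _, by rw [h, zero_modByMonic]⟩

lemma PU_pow {m : ℕ} {P : K[X]} (hP : P ∈ PU K m) : (2 : ℝ) ≤ (Fintype.card K : ℝ) ^ P.natDegree := by
  rw [mem_PU] at hP
  have h1 := q_ge (k := K)
  have h2 : P.natDegree ≠ 0 := hP.2.1.natDegree_pos.ne'
  calc (2 : ℝ) ≤ (Fintype.card K : ℝ) := h1
    _ ≤ (Fintype.card K : ℝ) ^ P.natDegree := le_self_pow₀ (by linarith) h2

lemma wd_id {k : ℕ} (α : Fin k → K[X]) {m : ℕ} {P : K[X]} (hP : P ∈ PU K m) :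
    1 - ((om α P + 1 : ℕ) : ℝ) / (Fintype.card K : ℝ) ^ P.natDegree =
      (1 - wd α P) * (1 - wt K P.natDegree) := by
  have h1 := PU_pow hP
  unfold wd wt
  have h2 : (Fintype.card K : ℝ) ^ P.natDegree - 1 ≠ 0 := by linarith
  have h3 : (Fintype.card K : ℝ) ^ P.natDegree ≠ 0 := by linarith
  push_cast
  field_simp
  ring

lemma wd_lt {k : ℕ} (α : Fin k → K[X]) {m : ℕ} (hA : Adm α m) {P : K[X]} (hP : P ∈ PU K m) :
    0 < 1 - wd α P := by
  have h1 := PU_pow hP
  have h2 : ((om α P : ℝ) + 1) < (Fintype.card K : ℝ) ^ P.natDegree := by exact_mod_cast hA P hP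
  unfold wd
  rw [sub_pos, div_lt_one (by linarith)]
  linarith

lemma V1_pos {k : ℕ} (α : Fin k → K[X]) {m : ℕ} (hA : Adm α m) : 0 < V1 α m :=
  Finset.prod_pos fun P hP => wd_lt α hA hP

end loc

theorem upP (hs : S_sw) : S_upP := by
  intro K _ _ _ k
  obtain ⟨A₀, hA₀⟩ := sw1 hs K (k + 1) 1 one_pos
  have hA1 : (0 : ℝ) < (A₀ : ℝ) + 1 := by positivity
  refine ⟨1 / (4 * ((A₀ : ℝ) + 1)), by positivity, 1, ?_⟩
  intro d j m hd hm hmj hma α p B hp hB hBd hadm
  have hd1 : (1 : ℝ) ≤ d := by exact_mod_cast hd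
  -- the level
  obtain ⟨m2, hm2⟩ : ∃ m2, m2 = (d + 1) / (A₀ + 1) := ⟨_, rfl⟩
  have hm2a : m2 * (A₀ + 1) ≤ d + 1 := by rw [hm2]; exact Nat.div_mul_le_self _ _
  have hm2b : d + 1 < (m2 + 1) * (A₀ + 1) := by
    rw [hm2]
    exact Nat.lt_mul_of_div_lt (Nat.lt_succ_self _) (Nat.succ_pos _)
  have hmm2 : m ≤ m2 := by
    rw [hm2, Nat.le_div_iff_mul_le (Nat.succ_pos _)]
    have h1 : (m : ℝ) * ((A₀ : ℝ) + 1) ≤ d := by
      have h2 : (m : ℝ) ≤ d / (4 * ((A₀ : ℝ) + 1)) := by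
        refine hma.trans (le_of_eq ?_)
        ring
      rw [le_div_iff₀ (by positivity)] at h2
      have h3 : 0 ≤ (m : ℝ) * ((A₀ : ℝ) + 1) := by positivity
      linarith
    have h2 : m * (A₀ + 1) ≤ d := by exact_mod_cast h1
    exact h2.trans (Nat.le_succ _)
  have hm21 : 1 ≤ m2 := hm.trans hmm2
  have hm2d : m2 < 2 * d + 1 := by
    have : m2 ≤ m2 * (A₀ + 1) := Nat.le_mul_of_pos_right _ (Nat.succ_pos _)
    omega
  have hAL : A₀ * m2 ≤ d + 1 := by
    refine le_trans ?_ hm2a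
    rw [mul_comm]
    exact Nat.mul_le_mul_left _ (Nat.le_succ _)
  have hsub : PU K m ⊆ PU K m2 := by
    intro P hP
    rw [mem_PU] at hP ⊢
    exact ⟨hP.1, hP.2.1, hP.2.2.trans hmm2⟩
  rw [mem_Irn] at hp
  have hPp : ∀ P ∈ PU K m, ¬ P ∣ p := by
    intro P hP hd
    rw [mem_PU] at hP
    have h1 : Associated P p := hP.2.1.associated_of_dvd hp.2.2 hd
    have h2 := natDegree_eq_of_degree_eq (degree_eq_degree_of_associated h1)
    omega
  -- the residues
  have hres : ∀ (P : K[X]) (i : Fin k), ∃ r : K[X], (P ∈ PU K m → P ∣ p * r + α i) ∧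
      (P ∉ PU K m → r = 0) := by
    intro P i
    by_cases hP : P ∈ PU K m
    · obtain ⟨r, hr⟩ := exists_res p P (α i) (mem_PU.1 hP).2.1 (hPp P hP)
      exact ⟨r, fun _ => hr, fun h => absurd hP h⟩
    · exact ⟨0, fun h => absurd h hP, fun _ => rfl⟩
  choose r hr1 hr2 using hres
  obtain ⟨ρ, hρ⟩ : ∃ ρ : K[X] → Fin (k + 1) → K[X], ρ = fun P => Fin.cons 0 (r P) := ⟨_, rfl⟩
  have hρ0 : ∀ P, ρ P 0 = 0 := by intro P; rw [hρ]; rfl
  have hρs : ∀ P i, ρ P (Fin.succ i) = r P i := by intro P i; rw [hρ]; rfl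
  have hst0 : ∀ (P : K[X]) (i : Fin (k + 1)), ∃ a b, G a b = ρ P i := fun P i => G_surj (ρ P i)
  choose s t hst using hst0
  obtain ⟨β, hβ⟩ : ∃ β : K[X] → Fin (k + 1) → K[X], β = fun P => bet (s P) (t P) B P := ⟨_, rfl⟩
  have hF1 : ∀ (P : K[X]) (hP : Irreducible P) (A : K[X]) (i : Fin (k + 1)),
      P ∣ A - β P i ↔ P ∣ G A B - ρ P i := by
    intro P hP A i
    rw [hβ]
    show P ∣ A - bet (s P) (t P) B P i ↔ _
    rw [dvd_bet (s P) (t P) hP, hst]
  have hF2 : ∀ (P : K[X]) (hP : Irreducible P) (i i' : Fin (k + 1)),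
      P ∣ β P i - β P i' ↔ P ∣ ρ P i - ρ P i' := by
    intro P hP i i'
    rw [hβ]
    show P ∣ bet (s P) (t P) B P i - bet (s P) (t P) B P i' ↔ _
    rw [dvd_bet_sub (s P) (t P) hP, hst, hst]
  -- the number of the residue classes
  have hc1 : ∀ P ∈ PU K m, (Om (β P) P).card = om α P + 1 := by
    intro P hP
    have hP' := mem_PU.1 hP
    rw [← card_cons α hP'.1]
    apply card_Om_eq hP'.1
    intro i i'
    rw [hF2 P hP'.2.1]
    have h1 : ∀ i : Fin (k + 1), P ∣ p * ρ P i + (Fin.cons 0 α : Fin (k + 1) → K[X]) i := by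
      intro i
      refine Fin.cases ?_ (fun i => ?_) i
      · rw [hρ0, Fin.cons_zero, mul_zero, add_zero]
        exact dvd_zero _
      · rw [hρs, Fin.cons_succ]
        exact hr1 P i hP
    have h2 : p * (ρ P i - ρ P i') + ((Fin.cons 0 α : Fin (k + 1) → K[X]) i -
        (Fin.cons 0 α : Fin (k + 1) → K[X]) i') =
        (p * ρ P i + (Fin.cons 0 α : Fin (k + 1) → K[X]) i) -
        (p * ρ P i' + (Fin.cons 0 α : Fin (k + 1) → K[X]) i') := by ring
    have h3 := dvd_sub (h1 i) (h1 i')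
    rw [← h2] at h3
    constructor
    · intro h4
      exact (dvd_add_right (Dvd.dvd.mul_left h4 p)).1 h3
    · intro h4
      have h5 := (dvd_add_left h4).1 h3
      rcases hP'.2.1.prime.dvd_or_dvd h5 with h6 | h6
      · exact absurd h6 (hPp P hP)
      · exact h6
  have hc2 : ∀ P ∈ PU K m2, P ∉ PU K m → (Om (β P) P).card = 1 := by
    intro P hP hPm
    have hP' := mem_PU.1 hP
    refine Eq.trans ?_ (card_zero (K := K) (k := k) (P := P))
    apply card_Om_eq hP'.1
    intro i i'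
    rw [hF2 P hP'.2.1]
    have h1 : ∀ i : Fin (k + 1), ρ P i = 0 := by
      intro i
      refine Fin.cases (hρ0 P) (fun i => ?_) i
      rw [hρs, hr2 P i hPm]
    rw [h1, h1]
  have hadm2 : ∀ P ∈ PU K m2, ∃ r, ∀ i, ¬ P ∣ r - β P i := by
    intro P hP
    have hP' := mem_PU.1 hP
    apply exists_of_card (β P) hP'.1
    by_cases hPm : P ∈ PU K m
    · rw [hc1 P hPm]
      exact hadm P hPm
    · rw [hc2 P hP hPm]
      have h1 := PU_pow hP
      have h2 : (1 : ℝ) < (Fintype.card K : ℝ) ^ P.natDegree := by linarith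
      exact_mod_cast h2
  -- the sieve
  obtain ⟨-, hup, -⟩ := hA₀ (d + 1) m2 (PU K m2) β 1 0 hm21 hAL (fun P hP =>
    ⟨(mem_PU.1 hP).1, (mem_PU.1 hP).2.1, (mem_PU.1 hP).2.2, isCoprime_one_left⟩) hadm2
  have hcnt : (((Finset.univ : Finset (degreeLT K (d + 1))).filter (fun A : degreeLT K (d + 1) =>
          Irreducible ((A : K[X]) ^ 2 + X * B ^ 2) ∧
          ∀ i, Sft m (p * ((A : K[X]) ^ 2 + X * B ^ 2) + α i))).card : ℝ) ≤
      ∑ u : degreeLT K (d + 1), ind (PU K m2) β (0 + 1 * (u : K[X])) := by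
    rw [← Finset.sum_boole]
    refine Finset.sum_le_sum fun u _ => ?_
    by_cases hu : Irreducible ((u : K[X]) ^ 2 + X * B ^ 2) ∧
          ∀ i, Sft m (p * ((u : K[X]) ^ 2 + X * B ^ 2) + α i)
    · rw [if_pos hu]
      have hsd : Pool.Agent.H225.Par.Sd (PU K m2) β (0 + 1 * (u : K[X])) := by
        intro P hP i hi
        have hP' := mem_PU.1 hP
        rw [hF1 P hP'.2.1, zero_add, one_mul] at hi
        have hgg : G (u : K[X]) B = (u : K[X]) ^ 2 + X * B ^ 2 := rfl
        have hnot : ¬ P ∣ G (u : K[X]) B := by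
          intro h
          have h1 : Associated P (G (u : K[X]) B) := hP'.2.1.associated_of_dvd hu.1 h
          have h2 := natDegree_eq_of_degree_eq (degree_eq_degree_of_associated h1)
          have h3 : (G (u : K[X]) B).coeff (2 * d + 1) ≠ 0 := by
            rw [coeff_G_odd, ← hBd, hB.coeff_natDegree, one_pow]
            exact one_ne_zero
          have h4 := le_natDegree_of_ne_zero h3
          have h5 := hP'.2.2
          omega
        have hdis : ρ P i = 0 ∨ (P ∈ PU K m ∧ ∃ i', ρ P i = r P i') := by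
          refine Fin.cases (Or.inl (hρ0 P)) (fun i' => ?_) i
          by_cases hPm : P ∈ PU K m
          · exact Or.inr ⟨hPm, i', hρs P i'⟩
          · left
            rw [hρs, hr2 P i' hPm]
        rcases hdis with h0 | ⟨hPm, i', hi'⟩
        · rw [h0, sub_zero] at hi
          exact hnot hi
        · rw [hi'] at hi
          have h1 : p * G (u : K[X]) B + α i' = p * (G (u : K[X]) B - r P i') + (p * r P i' + α i') := by
            ring
          have h2 : P ∣ p * G (u : K[X]) B + α i' := by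
            rw [h1]
            exact dvd_add (Dvd.dvd.mul_left hi p) (hr1 P i' hPm)
          have h3 := hu.2 i' P hP'.1 hP'.2.1 h2
          have h4 := (mem_PU.1 hPm).2.2
          omega
      unfold ind
      rw [if_pos hsd]
    · rw [if_neg hu]
      exact ind_nonneg _ _ _
  -- the density
  have hvf : vf (PU K m2) β = V1 α m * ∏ P ∈ PU K m2, (1 - wt K P.natDegree) := by
    unfold vf V1
    rw [← Finset.prod_sdiff hsub, ← Finset.prod_sdiff hsub (f := fun P => 1 - wt K P.natDegree)]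
    have h1 : ∏ P ∈ PU K m, lf (β P) P = (∏ P ∈ PU K m, (1 - wd α P)) *
        ∏ P ∈ PU K m, (1 - wt K P.natDegree) := by
      rw [← Finset.prod_mul_distrib]
      refine Finset.prod_congr rfl fun P hP => ?_
      unfold lf
      rw [hc1 P hP, wd_id α hP]
    have h2 : ∏ P ∈ PU K m2 \ PU K m, lf (β P) P = ∏ P ∈ PU K m2 \ PU K m,
        (1 - wt K P.natDegree) := by
      refine Finset.prod_congr rfl fun P hP => ?_
      rw [Finset.mem_sdiff] at hP
      unfold lf wt
      rw [hc2 P hP.1 hP.2, Nat.cast_one, one_div]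
    rw [h1, h2]
    ring
  have hV := V1_pos α hadm
  have hq0 : (0 : ℝ) < Fintype.card K := by
    have := q_ge (k := K)
    linarith
  have hM := mert (K := K) m2
  have hm2c : (d : ℝ) + 1 < ((m2 : ℝ) + 1) * ((A₀ : ℝ) + 1) := by exact_mod_cast hm2b
  have hfin : 2 * vf (PU K m2) β ≤ V1 α m / (1 / (4 * ((A₀ : ℝ) + 1)) * d) := by
    rw [hvf]
    have h1 : V1 α m * ∏ P ∈ PU K m2, (1 - wt K P.natDegree) ≤ V1 α m * (1 / ((m2 : ℝ) + 1)) :=
      mul_le_mul_of_nonneg_left hM hV.le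
    have h2 : 2 * (1 / ((m2 : ℝ) + 1)) ≤ 1 / (1 / (4 * ((A₀ : ℝ) + 1)) * d) := by
      have h3 : 1 / (1 / (4 * ((A₀ : ℝ) + 1)) * d) = 4 * ((A₀ : ℝ) + 1) / d := by
        field_simp
      rw [h3, mul_one_div, div_le_div_iff₀ (by positivity) (by linarith)]
      nlinarith
    calc 2 * (V1 α m * ∏ P ∈ PU K m2, (1 - wt K P.natDegree)) ≤
        2 * (V1 α m * (1 / ((m2 : ℝ) + 1))) := by linarith
      _ = V1 α m * (2 * (1 / ((m2 : ℝ) + 1))) := by ring
      _ ≤ V1 α m * (1 / (1 / (4 * ((A₀ : ℝ) + 1)) * d)) := mul_le_mul_of_nonneg_left h2 hV.le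
      _ = V1 α m / (1 / (4 * ((A₀ : ℝ) + 1)) * d) := by rw [mul_one_div]
  have hqd : (0 : ℝ) < (Fintype.card K : ℝ) ^ (d + 1) := pow_pos hq0 _
  calc _ ≤ ∑ u : degreeLT K (d + 1), ind (PU K m2) β (0 + 1 * (u : K[X])) := hcnt
    _ ≤ (1 + 1) * vf (PU K m2) β * (Fintype.card K : ℝ) ^ (d + 1) := hup
    _ = 2 * vf (PU K m2) β * (Fintype.card K : ℝ) ^ (d + 1) := by ring
    _ ≤ V1 α m / (1 / (4 * ((A₀ : ℝ) + 1)) * d) * (Fintype.card K : ℝ) ^ (d + 1) :=
      mul_le_mul_of_nonneg_right hfin hqd.le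
    _ = V1 α m * (Fintype.card K : ℝ) ^ (d + 1) / (1 / (4 * ((A₀ : ℝ) + 1)) * d) := by ring

end Pool.Agent.H353.E2
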